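import Pool.Agent.Q21.DW.Cnt
import Pool.Agent.Results.MP_2d259b_nt.FibresOffPolynomialValues

/-!
# Effective bounds for the integer points of ALL polynomials in the fibres given by the digits and the multiples of a
real number

Let `d ≥ 4`. For almost every real number `α`, for EVERY polynomial `F ∈ ℤ[x, y]` of degree `d` with squarefree
leading form and in every base `g`: for all `t = ± m`, where `m` is written by `k` consecutive digits of `α` after one
of the first `g ^ (κ k)` places, `κ < 1 - 1/d`, if `k` is large, all integer solutions of `F(x, y) = t` are at most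
`((d + 1) (h(F) + |t|)) ^ (10^17 1296^d (d+1)^15)`, `h(F)` the sum of the absolute values of the coefficients. The
exceptional set of `α` has Hausdorff dimension at most `(1/d + η) / (1 + η)` if only the first `η k` places are used.
The same for all integers `t` with `||t| - α v_k| ≤ w_k`, `α` outside a set of `s`-dimensional Hausdorff measure zero,
if `∑ v_k ^ τ (w_k / v_k) ^ s` converges for some `τ > 1/d`.
-/

set_option autoImplicit false

namespace Pool.Agent.Results.MP_2d259b_nt.RandomFibres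

/-- the polynomials `F ∈ ℤ[x, y]` of degree `d` whose leading form is squarefree over `ℚ` -/
def Family (d : ℕ) : Type :=
  {F : MvPolynomial (Fin 2) ℤ // F.totalDegree = d ∧
    Squarefree (MvPolynomial.map (Int.castRingHom ℚ) (MvPolynomial.homogeneousComponent d F))}

/-- all the integer solutions of `F(x, y) = t`, `t = n` or `t = - n`, are bounded by
`((d + 1) (h(F) + n)) ^ (10^17 1296^d (d+1)^15)`, `h(F)` the sum of the absolute values of the coefficients of `F` -/
def BoundedFibre (d : ℕ) (F : Family d) (n : ℕ) : Prop :=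
  ∀ t : ℤ, t.natAbs = n → ∀ x y : ℤ, MvPolynomial.eval ![x, y] F.1 = t →
    max x.natAbs y.natAbs ≤ ((d + 1) * (∑ m ∈ F.1.support, (F.1.coeff m).natAbs + n)) ^
      (10 ^ 17 * 1296 ^ d * (d + 1) ^ 15)

instance (d : ℕ) : Countable (Family d) := by
  have h : Countable (MvPolynomial (Fin 2) ℤ) := by
    rw [← Cardinal.mk_le_aleph0_iff]
    refine MvPolynomial.cardinalMk_le_max.trans ?_
    simp
  unfold Family
  infer_instance

/-- **Theorem.** Let `d ≥ 4`. In the sense of `RandomReals (1/d)` (digits and dilates of almost all real numbers `α`,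
with Hausdorff dimensions), for all `F ∈ ℤ[x, y]` of degree `d` with squarefree leading form at once: all the integer
solutions of `F(x, y) = ± n` are at most `((d + 1) (h(F) + n)) ^ (10^17 1296^d (d+1)^15)`. -/
theorem result (d : ℕ) (hd : 4 ≤ d) :
    Pool.Agent.Q21.DW.RandomReals (1 / (d : ℝ)) (BoundedFibre d) := by
  classical
  have hdR : (4 : ℝ) ≤ d := by exact_mod_cast hd
  have hd0 : (0 : ℝ) < d := by linarith
  have hd1 : 1 / (d : ℝ) < 1 := by
    rw [div_lt_one hd0]
    linarith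
  refine Pool.Agent.Q21.DW.randomReals_of (B := fun F n => ¬ BoundedFibre d F n) (by positivity)
    hd1 (fun F => ?_) (fun F n _ h2 => not_not.1 h2)
  obtain ⟨-, hcnt⟩ := FibresOffPolynomialValues.result d hd F.1 F.2.1 F.2.2
  set C : ℕ := 10 ^ 9 * 36 ^ d * (d + 1) ^ 9 with hC
  set T : ℕ → Set ℤ := fun m => {t : ℤ | |t| ≤ (m : ℤ) ^ d ∧
      ∃ x y : ℤ, MvPolynomial.eval ![x, y] F.1 = t ∧
        ((d + 1) * (∑ m ∈ F.1.support, (F.1.coeff m).natAbs + t.natAbs)) ^
          (10 ^ 17 * 1296 ^ d * (d + 1) ^ 15) < max x.natAbs y.natAbs} with hT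
  refine Pool.Agent.Q21.DW.ps_of
    (fun X : ℕ => T ⌈(X : ℝ) ^ (1 / (d : ℝ))⌉₊) Int.natAbs _ _ ?_ ?_
  · intro ε hε
    refine ⟨5 * C, fun X hX => ?_⟩
    set ρ : ℝ := (X : ℝ) ^ (1 / (d : ℝ)) with hρ
    set m : ℕ := ⌈ρ⌉₊ with hm
    have hX1 : (1 : ℝ) ≤ X := by exact_mod_cast hX
    have hρ1 : 1 ≤ ρ := Real.one_le_rpow hX1 (by positivity)
    have hmρ : (m : ℝ) ≤ ρ + 1 := (Nat.ceil_lt_add_one (by linarith)).le
    have hfin : (T m).Finite := by
      refine (Set.finite_Icc (-((m : ℤ) ^ d)) ((m : ℤ) ^ d)).subset ?_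
      rintro t ⟨ht, -⟩
      exact abs_le.1 ht
    refine ⟨hfin, ?_⟩
    have h1 : (T m).ncard ≤ C * (2 * m + 1) := by
      have h2 := hcnt m
      rw [← hfin.cast_ncard_eq] at h2
      exact_mod_cast h2
    have h3 : ((T m).ncard : ℝ) ≤ C * (2 * m + 1) := by exact_mod_cast h1
    have h4 : (C : ℝ) * (2 * m + 1) ≤ 5 * C * ρ := by
      have h5 : (0 : ℝ) ≤ C := Nat.cast_nonneg _
      nlinarith
    have h6 : ρ ≤ (X : ℝ) ^ (1 / (d : ℝ) + ε) :=
      Real.rpow_le_rpow_of_exponent_le hX1 (by linarith)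
    have h7 : (0 : ℝ) ≤ 5 * C := by positivity
    exact (h3.trans h4).trans (mul_le_mul_of_nonneg_left h6 h7)
  · intro n N hn hnN hB
    unfold BoundedFibre at hB
    push Not at hB
    obtain ⟨t, ht, x, y, he, hlt⟩ := hB
    refine ⟨t, ⟨?_, x, y, he, ?_⟩, ht⟩
    · have h1 : ((t.natAbs : ℕ) : ℝ) ≤ ((⌈(N : ℝ) ^ (1 / (d : ℝ))⌉₊ ^ d : ℕ) : ℝ) := by
        have h2 : (N : ℝ) = ((N : ℝ) ^ (1 / (d : ℝ))) ^ d := by
          rw [one_div]
          exact (Real.rpow_inv_natCast_pow (Nat.cast_nonneg _) (by omega)).symm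
        have h3 : ((N : ℝ) ^ (1 / (d : ℝ))) ^ d ≤ (⌈(N : ℝ) ^ (1 / (d : ℝ))⌉₊ : ℝ) ^ d :=
          pow_le_pow_left₀ (by positivity) (Nat.le_ceil _) d
        have h4 : ((t.natAbs : ℕ) : ℝ) ≤ N := by
          rw [ht]
          exact_mod_cast hnN
        push_cast
        linarith
      have h5 : t.natAbs ≤ ⌈(N : ℝ) ^ (1 / (d : ℝ))⌉₊ ^ d := by exact_mod_cast h1
      have h6 : |t| = (t.natAbs : ℤ) := (Int.natCast_natAbs t).symm
      rw [h6]
      exact_mod_cast h5
    · rw [ht]
      exact hlt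

end Pool.Agent.Results.MP_2d259b_nt.RandomFibres
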