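import Pool.Agent.Q21.DW.Dy
import Pool.Agent.Results.MP_2d259b_nt.AllFibres

set_option autoImplicit false

/-! # Integer points on the curves `F(x, y) = n` for the integers `n` given by the digits and the multiples of a real

For almost every real number `α`, for ALL integer polynomials `F` of degree `d ≥ 4` in two variables with squarefree
leading form, the integer points on the curves `F(x, y) = ± n` satisfy `max |x| |y| ≤ (2 (d + 1) n) ^ c(d)`,
`c(d) = 2 * 10 ^ 11 * 36 ^ d * (d + 1) ^ 13`, for ALL numbers `n` written by `k` consecutive digits of `α` after one of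
the first `g ^ (κ k)` places, `κ < 1 - 1 / d`, in every base `g`, if `k` is large.  The exceptional set of `α` has
Hausdorff dimension at most `(1 / d + η) / (1 + η)` if only the first `η k` places are used.  The same for all
integers `n` with `|n - α v_k| ≤ w_k`, `α` outside a set of `s`-dimensional Hausdorff measure zero, if
`∑ v_k ^ t (w_k / v_k) ^ s` converges for some `t > 1 / d`. -/

namespace Pool.Agent.Results.MP_2d259b_nt.RandomReals

open Finset

/-- the integer polynomials in two variables of total degree `d` whose leading form is squarefree over `ℚ` -/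
def Poly (d : ℕ) : Type := {F : MvPolynomial (Fin 2) ℤ // F.totalDegree = d ∧
  Squarefree (MvPolynomial.map (Int.castRingHom ℚ) (MvPolynomial.homogeneousComponent d F))}

/-- all integer points on the curves `F(x, y) = t`, `t = ± n`, satisfy `max |x| |y| ≤ (2 (d + 1) n) ^ c(d)` -/
def Bounded (d : ℕ) (F : Poly d) (n : ℕ) : Prop :=
  ∀ t x y : ℤ, t.natAbs = n → MvPolynomial.eval ![x, y] F.1 = t →
    max x.natAbs y.natAbs ≤ (2 * (d + 1) * n) ^ (2 * 10 ^ 11 * 36 ^ d * (d + 1) ^ 13)

instance (d : ℕ) : Countable (Poly d) := by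
  have h : Countable (MvPolynomial (Fin 2) ℤ) := by
    rw [← Cardinal.mk_le_aleph0_iff]
    refine MvPolynomial.cardinalMk_le_max.trans ?_
    simp
  unfold Poly
  infer_instance

/-- **Theorem.** For `d ≥ 4`, in the sense of `RandomReals (1 / d)` (digits and dilates of almost all real numbers
`α`, with Hausdorff dimensions, all polynomials `F` at once): all integer points on `F(x, y) = ± n` satisfy
`max |x| |y| ≤ (2 (d + 1) n) ^ c(d)`. -/
theorem result (d : ℕ) (hd : 4 ≤ d) : Pool.Agent.Q21.DW.RandomReals (1 / (d : ℝ)) (Bounded d) := by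
  classical
  have hd0 : (4 : ℝ) ≤ d := by exact_mod_cast hd
  refine Pool.Agent.Q21.DW.randomReals_of (B := fun F n => ¬ Bounded d F n) (by positivity)
    (by rw [div_lt_one (by linarith)]; linarith) (fun F => ?_) (fun _ n _ h2 => not_not.1 h2)
  refine Pool.Agent.Q21.DW.ps_dyadic' (by positivity) ?_
  intro t ht
  refine ⟨((10 ^ 9 * 36 ^ d * (d + 1) ^ 7 : ℕ) : ℝ), ∑ m ∈ F.1.support, (F.1.coeff m).natAbs,
    fun N hN hN1 => ?_⟩
  have h1 := AllFibres.result d hd F.1 F.2.1 F.2.2 N hN
  have hN1' : (1 : ℝ) ≤ N := by exact_mod_cast hN1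
  set S : Set ℤ := {t : ℤ | |t| ≤ (N : ℤ) ∧ ∃ x y : ℤ, MvPolynomial.eval ![x, y] F.1 = t ∧
      ((d + 1) * N) ^ (2 * 10 ^ 11 * 36 ^ d * (d + 1) ^ 13) < max x.natAbs y.natAbs} with hS
  have hfin : S.Finite := (Set.finite_Icc (-(N : ℤ)) N).subset fun k hk => abs_le.1 hk.1
  have hsub : {n : ℕ | 1 ≤ n ∧ n ≤ N ∧ N < 2 * n ∧ ¬ Bounded d F n} ⊆ Int.natAbs '' S := by
    rintro n ⟨_, hnN, hn2, hn3⟩
    unfold Bounded at hn3
    push Not at hn3
    obtain ⟨t, x, y, ht, he, hb⟩ := hn3
    refine ⟨t, ⟨?_, x, y, he, lt_of_le_of_lt (Nat.pow_le_pow_left ?_ _) hb⟩, ht⟩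
    · rw [Int.abs_eq_natAbs, ht]
      exact_mod_cast hnN
    · calc (d + 1) * N ≤ (d + 1) * (2 * n) := Nat.mul_le_mul_left _ hn2.le
        _ = _ := by ring
  have h2 : ({n : ℕ | 1 ≤ n ∧ n ≤ N ∧ N < 2 * n ∧ ¬ Bounded d F n}.ncard : ℝ) ≤ (S.ncard : ℝ) := by
    exact_mod_cast (Set.ncard_le_ncard hsub (hfin.image _)).trans (Set.ncard_image_le hfin)
  refine h2.trans (h1.trans ?_)
  exact mul_le_mul_of_nonneg_left (Real.rpow_le_rpow_of_exponent_le hN1' ht.le) (by positivity)

end Pool.Agent.Results.MP_2d259b_nt.RandomReals
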