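import Mathlib
import Pool.Agent.H458.Sp.AllBase

set_option autoImplicit false

/-!
# Explicit bounds for the sparse integer points of all plane curves with finitely many of them

Let `f ∈ ℤ[x, y]` have total degree at most `d` and sum of the absolute values of the coefficients
at most `A`.  Let `(x, y)` be an integer solution of `f = 0` such that, in some base `b ≥ 2`, `x` is
a combination of `r` powers of `b` and `y` is a combination of `s` powers of `b`, with integral
coefficients of absolute value at most `B`.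

1. Either `max |x| |y| ≤ M B ((1 + A) (M B) ^ d) ^ (4 (4 d) ^ M)` with `M = r + s`, a bound that does
   not depend on the base, or the point lies on a polynomial curve: there are `p, q ∈ ℤ[t]`,
   not both constant, with `f (p, q) = 0` and `p (b) = x`, `q (b) = y`.
2. So, if the set `Z(f)` of all integer solutions is FINITE, which is exactly the hypothesis of the
   problem, then the bound holds for all these solutions.  There is no condition on the genus,
   the points at infinity or the irreducibility of the curve.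
3. The same for every system of polynomial equations in `n` unknowns with finitely many integer
   solutions.
-/

namespace Pool.Agent.Results.MP_2d259b_nt.SparseSolutionsAnyBase

open MvPolynomial Pool.Agent.H458.Sp

/-- `x` is a combination of `r` powers of `b` with integral coefficients of absolute value at most
`B`; the exponents `e` and the coefficients `c` are arbitrary -/
def Sparse (b r B : ℕ) (x : ℤ) : Prop :=
  ∃ (e : Fin r → ℕ) (c : Fin r → ℤ), (∀ j, |c j| ≤ B) ∧ x = ∑ j, c j * (b : ℤ) ^ e j

/-- all the `x i` are combinations of the same `r` powers of `b` with integral coefficients of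
absolute value at most `B` -/
def SparseTuple {n : ℕ} (b r B : ℕ) (x : Fin n → ℤ) : Prop :=
  ∃ (e : Fin r → ℕ) (c : Fin n → Fin r → ℤ), (∀ i j, |c i j| ≤ B) ∧
    ∀ i, x i = ∑ j, c i j * (b : ℤ) ^ e j

/-- the sum of the absolute values of the coefficients -/
noncomputable def len {n : ℕ} (f : MvPolynomial (Fin n) ℤ) : ℤ :=
  ∑ α ∈ f.support, |coeff α f|

/-- the bound: computable from the degree `d`, the sum `A` of the absolute values of the
coefficients, the number `r` of powers and the bound `B` for the coefficients of these -/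
def bound (d A r B : ℕ) : ℕ := r * B * ((1 + A) * (r * B) ^ d) ^ (4 * (4 * d) ^ r)

theorem pair {b r s B : ℕ} {x y : ℤ} (hx : Sparse b r B x) (hy : Sparse b s B y) :
    SparseTuple b (r + s) B ![x, y] := by
  obtain ⟨e, c, hc, hx⟩ := hx
  obtain ⟨e', c', hc', hy⟩ := hy
  refine ⟨Fin.append e e', ![Fin.append c 0, Fin.append 0 c'], ?_, ?_⟩
  · intro i j
    fin_cases i
    · refine Fin.addCases (fun j => ?_) (fun j => ?_) j
      · simpa using hc j
      · simp
    · refine Fin.addCases (fun j => ?_) (fun j => ?_) j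
      · simp
      · simpa using hc' j
  · intro i
    rw [Fin.sum_univ_add]
    fin_cases i
    · simpa using hx
    · simpa using hy

theorem result :
    -- the dichotomy, for every polynomial in two variables
    (∀ (f : MvPolynomial (Fin 2) ℤ) (d A : ℕ), 1 ≤ d → 1 ≤ A → f.totalDegree ≤ d → len f ≤ A →
      ∀ (x y : ℤ), eval ![x, y] f = 0 → ∀ b r s B : ℕ, 2 ≤ b → Sparse b r B x → Sparse b s B y →
        max |x| |y| ≤ bound d A (r + s) B ∨
        ∃ p q : Polynomial ℤ, aeval ![p, q] f = 0 ∧ p.eval (b : ℤ) = x ∧ q.eval (b : ℤ) = y ∧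
          (p.natDegree ≠ 0 ∨ q.natDegree ≠ 0)) ∧
    -- the bound, if there are only finitely many integer solutions
    (∀ (f : MvPolynomial (Fin 2) ℤ) (d A : ℕ), 1 ≤ d → 1 ≤ A → f.totalDegree ≤ d → len f ≤ A →
      {z : ℤ × ℤ | eval ![z.1, z.2] f = 0}.Finite →
      ∀ (x y : ℤ), eval ![x, y] f = 0 → ∀ b r s B : ℕ, 2 ≤ b → Sparse b r B x → Sparse b s B y →
        max |x| |y| ≤ bound d A (r + s) B) ∧
    -- systems of equations
    (∀ (n : ℕ) (FF : Set (MvPolynomial (Fin n) ℤ)) (d A : ℕ), 1 ≤ d → 1 ≤ A →
      (∀ F ∈ FF, F.totalDegree ≤ d ∧ len F ≤ A) →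
      {x : Fin n → ℤ | ∀ F ∈ FF, eval x F = 0}.Finite →
      ∀ x : Fin n → ℤ, (∀ F ∈ FF, eval x F = 0) → ∀ b r B : ℕ, 2 ≤ b → SparseTuple b r B x →
        ∀ i, |x i| ≤ bound d A r B) := by
  have h3 : ∀ (n : ℕ) (FF : Set (MvPolynomial (Fin n) ℤ)) (d A : ℕ), 1 ≤ d → 1 ≤ A →
      (∀ F ∈ FF, F.totalDegree ≤ d ∧ len F ≤ A) →
      {x : Fin n → ℤ | ∀ F ∈ FF, eval x F = 0}.Finite →
      ∀ x : Fin n → ℤ, (∀ F ∈ FF, eval x F = 0) → ∀ b r B : ℕ, 2 ≤ b → SparseTuple b r B x →
        ∀ i, |x i| ≤ bound d A r B := by
    rintro n FF d A hd hA hF hfin x h0 b r B hb ⟨e, c, hc, hx⟩ i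
    exact finite_small_all FF d hd A hA (fun F h => (hF F h).1) (fun F h => (hF F h).2) hfin b hb B
      e c hc x hx h0 i
  refine ⟨?_, ?_, h3⟩
  · intro f d A hd hA hfd hfA x y h0 b r s B hb hx hy
    obtain ⟨e, c, hc, hxy⟩ := pair hx hy
    rcases affine_dichotomy_all {f} d hd A hA (by rintro F rfl; exact hfd)
      (by rintro F rfl; exact hfA) b hb B e c hc ![x, y] hxy (by rintro F rfl; exact h0) with
      ⟨p, hp, hpb, i, hi⟩ | h
    · right
      refine ⟨p 0, p 1, ?_, hpb 0, hpb 1, ?_⟩
      · have h2 : (![p 0, p 1] : Fin 2 → Polynomial ℤ) = p := by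
          funext i
          fin_cases i <;> rfl
        rw [h2]
        exact hp f rfl
      · fin_cases i
        · exact Or.inl hi
        · exact Or.inr hi
    · left
      exact max_le (h 0) (h 1)
  · intro f d A hd hA hfd hfA hfin x y h0 b r s B hb hx hy
    have hfin' : {x : Fin 2 → ℤ | ∀ F ∈ ({f} : Set (MvPolynomial (Fin 2) ℤ)),
        eval x F = 0}.Finite := by
      refine (hfin.image (fun z : ℤ × ℤ => (![z.1, z.2] : Fin 2 → ℤ))).subset ?_
      intro z hz
      refine ⟨(z 0, z 1), ?_, ?_⟩
      · have h2 : (![z 0, z 1] : Fin 2 → ℤ) = z := by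
          funext i
          fin_cases i <;> rfl
        show eval ![z 0, z 1] f = 0
        rw [h2]
        exact hz f rfl
      · funext i
        fin_cases i <;> rfl
    have h := h3 2 {f} d A hd hA (by rintro F rfl; exact ⟨hfd, hfA⟩) hfin' ![x, y]
      (by rintro F rfl; exact h0) b (r + s) B hb (pair hx hy)
    exact max_le (h 0) (h 1)

end Pool.Agent.Results.MP_2d259b_nt.SparseSolutionsAnyBase
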