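import Pool.Agent.Q324.SC.PlaneMain

/-!
# A computable bound for most plane curves gives one for all plane curves

The question asks for a computable function `B` such that all integer zeros of `f` are bounded by
`B f` for every integer polynomial `f` in two variables with finitely many integer zeros.

The family of the polynomials of degree at most `n` in each variable with coefficients in
`[-H, H]` has `(2 H + 1) ^ ((n + 1) ^ 2)` members. The bound `B = 0` is wrong for a proportion of
about `1 / H` of them only. It is shown that the question has a positive answer as soon as, for one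
fixed `q`, there is a computable `B` that may be wrong for a proportion `H ^ (- (n + 1) ^ 2 / q)` of
these polynomials, up to a computable constant `K n`.

The reason: `f` and `f (1 + 2 P)` have the same integer zeros for every integer polynomial `P`, and
for `P` of large degree these polynomials are more numerous than the exceptions.
-/

set_option autoImplicit false

namespace Pool.Agent.Results.MP_2d259b_nt.WorstCaseFromMostCurves

open Pool.Agent.Q324.SC

/-- The question: there is a computable bound which is right for all lists of terms. -/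
def Q1 : Prop := ∃ B : List Term → ℕ, Computable B ∧ ∀ L, Right B L

lemma num (E K X a b q : ℕ) (hq : 1 ≤ q) (hX : 1 ≤ X) (hab : a ≤ q * b) (h : E ^ q ≤ K * X ^ a) :
    E ≤ K * X ^ b := by
  by_contra hc
  push Not at hc
  have h1 : (K * X ^ b) ^ q < E ^ q := Nat.pow_lt_pow_left hc (by omega)
  have h2 : K ≤ K ^ q := by
    rcases Nat.eq_zero_or_pos K with h0 | h0
    · rw [h0]; exact Nat.zero_le _
    · exact Nat.le_self_pow (by omega) K
  have h3 : X ^ a ≤ (X ^ b) ^ q := by
    rw [← pow_mul, Nat.mul_comm]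
    exact Nat.pow_le_pow_right hX hab
  have h4 : K * X ^ a ≤ (K * X ^ b) ^ q := by
    rw [mul_pow]
    exact Nat.mul_le_mul h2 h3
  omega

lemma grid_congr {n : ℕ} {c c' : ℕ → ℕ → ℤ} (h : ∀ i j, i ≤ n → j ≤ n → c i j = c' i j) :
    grid n c = grid n c' := by
  unfold grid
  rw [List.flatMap_def, List.flatMap_def]
  congr 1
  refine List.map_congr_left fun i hi => List.map_congr_left fun j hj => ?_
  rw [List.mem_range] at hi hj
  rw [h i j (by omega) (by omega)]

lemma box_card (n H : ℕ) : (Box n H).encard = (((2 * H + 1) ^ ((n + 1) ^ 2) : ℕ) : ℕ∞) := by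
  classical
  let S : Finset (Fin (n + 1) × Fin (n + 1) → ℤ) :=
    Fintype.piFinset (fun _ => Finset.Icc (-(H : ℤ)) H)
  let Φ : (Fin (n + 1) × Fin (n + 1) → ℤ) → List Term := fun f =>
    grid n (fun i j => if h : i < n + 1 ∧ j < n + 1 then f (⟨i, h.1⟩, ⟨j, h.2⟩) else 0)
  have h1 : Set.InjOn Φ (S : Set _) := by
    intro f _ g _ hfg
    funext p
    have h2 := grid_inj hfg (i := p.1) (j := p.2) (by omega) (by omega)
    have e1 : (p.1 : ℕ) ≤ n := by omega
    have e2 : (p.2 : ℕ) ≤ n := by omega
    simpa [e1, e2] using h2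
  have h2 : Box n H = Φ '' (S : Set _) := by
    ext L
    constructor
    · rintro ⟨c, hc, rfl⟩
      refine ⟨fun p => c p.1 p.2, ?_, ?_⟩
      · rw [Finset.mem_coe, Fintype.mem_piFinset]
        intro p
        rw [Finset.mem_Icc]
        have := hc p.1 p.2
        omega
      · change grid n _ = grid n _
        refine grid_congr fun i j hi hj => ?_
        rw [dif_pos ⟨by omega, by omega⟩]
    · rintro ⟨f, hf, rfl⟩
      refine ⟨_, fun i j => ?_, rfl⟩
      rw [Finset.mem_coe, Fintype.mem_piFinset] at hf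
      by_cases h : i < n + 1 ∧ j < n + 1
      · rw [dif_pos h]
        have := Finset.mem_Icc.1 (hf (⟨i, h.1⟩, ⟨j, h.2⟩))
        omega
      · rw [dif_neg h]
        simp
  rw [h2, h1.encard_image, Set.encard_coe_eq_coe_finsetCard, Fintype.card_piFinset]
  congr 1
  rw [Finset.prod_const, Int.card_Icc, Finset.card_univ, Fintype.card_prod, Fintype.card_fin, sq]
  congr 1
  omega

/-- (1) The number of polynomials of degree at most `n` in each variable and height at most `H`.
(2) For every `q ≥ 1` the question is equivalent to the existence of computable `B` and `K` such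
that for all `n`, `H` the number of such polynomials for which `B` is wrong is at most
`(K n (H + 1) ^ ((q - 1) (n + 1) ^ 2)) ^ (1 / q)`, that is the total number to the power
`1 - 1 / q`, up to `K`. (3) More precisely: it is enough that for some computable `e` and `K` the
number of exceptions of degree at most `d + e d` is at most `K d (H + 1) ^ ((e d + 1) ^ 2 - 1)`. -/
theorem result :
    (∀ n H : ℕ, (Box n H).encard = (((2 * H + 1) ^ ((n + 1) ^ 2) : ℕ) : ℕ∞)) ∧
    (∀ q : ℕ, 1 ≤ q → (Q1 ↔ ∃ (B : List Term → ℕ) (K : ℕ → ℕ), Computable B ∧ Computable K ∧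
      ∀ n H : ℕ, {L | L ∈ Box n H ∧ ¬ Right B L}.encard ^ q
        ≤ ((K n * (H + 1) ^ ((q - 1) * (n + 1) ^ 2) : ℕ) : ℕ∞))) ∧
    (∀ (B : List Term → ℕ) (e K : ℕ → ℕ), Computable B → Computable e → Computable K →
      (∀ d H : ℕ, {L | L ∈ Box (d + e d) H ∧ ¬ Right B L}.encard
        ≤ ((K d * (H + 1) ^ ((e d + 1) ^ 2 - 1) : ℕ) : ℕ∞)) → Q1) := by
  have h3 : ∀ (B : List Term → ℕ) (e K : ℕ → ℕ), Computable B → Computable e → Computable K →
      (∀ d H : ℕ, {L | L ∈ Box (d + e d) H ∧ ¬ Right B L}.encard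
        ≤ ((K d * (H + 1) ^ ((e d + 1) ^ 2 - 1) : ℕ) : ℕ∞)) → Q1 := by
    intro B e K hB he hK h
    exact self_correct hB he hK (fun d H => by
      have := h d H
      rwa [sq] at this)
  refine ⟨box_card, fun q hq => ⟨?_, ?_⟩, h3⟩
  · rintro ⟨B, hB, hr⟩
    refine ⟨B, fun _ => 0, hB, Computable.const 0, fun n H => ?_⟩
    have h1 : {L | L ∈ Box n H ∧ ¬ Right B L} = ∅ := by
      ext L
      simp [hr L]
    rw [h1, Set.encard_empty, zero_pow (by omega)]
    simp
  · rintro ⟨B, K, hB, hK, h⟩
    obtain ⟨r, rfl⟩ : ∃ r, q = r + 1 := ⟨q - 1, by omega⟩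
    have ce : Computable (fun d : ℕ => 2 * (r + 1) * (d + 1) - 1) := by
      have : Primrec (fun d : ℕ => 2 * (r + 1) * (d + 1) - 1) := by fun_prop
      exact this.to_comp
    have cn : Computable (fun d : ℕ => d + (2 * (r + 1) * (d + 1) - 1)) := by
      have : Primrec (fun d : ℕ => d + (2 * (r + 1) * (d + 1) - 1)) := by fun_prop
      exact this.to_comp
    refine h3 B (fun d => 2 * (r + 1) * (d + 1) - 1) (fun d => K (d + (2 * (r + 1) * (d + 1) - 1)))
      hB ce (hK.comp cn) ?_
    intro d H
    obtain ⟨m, hm⟩ : ∃ m, m = 2 * (r + 1) * (d + 1) := ⟨_, rfl⟩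
    have hm1 : 1 ≤ m := by rw [hm]; exact Nat.one_le_iff_ne_zero.2 (by positivity)
    change {L | L ∈ Box (d + (2 * (r + 1) * (d + 1) - 1)) H ∧ ¬ Right B L}.encard
        ≤ ((K (d + (2 * (r + 1) * (d + 1) - 1)) *
          (H + 1) ^ ((2 * (r + 1) * (d + 1) - 1 + 1) ^ 2 - 1) : ℕ) : ℕ∞)
    rw [← hm]
    have h1 := h (d + (m - 1)) H
    obtain ⟨E, hE⟩ : ∃ E, E = {L | L ∈ Box (d + (m - 1)) H ∧ ¬ Right B L}.encard := ⟨_, rfl⟩
    rw [← hE] at h1 ⊢
    have hEt : E ≠ ⊤ := by
      intro ht
      rw [ht, ENat.top_pow (by omega)] at h1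
      exact absurd h1 (not_le.2 (ENat.natCast_lt_top _))
    lift E to ℕ using hEt
    norm_cast at h1 ⊢
    refine num E _ _ _ _ (r + 1) (by omega) (by omega) ?_ h1
    have e1 : d + (m - 1) + 1 = d + m := by omega
    have e2 : m - 1 + 1 = m := by omega
    rw [e1, e2]
    have e3 : m ^ 2 = r * (d ^ 2 + 2 * d * m) + (r + 1)
        + (4 * r ^ 2 * d + 4 * r ^ 2 + 3 * r * d ^ 2 + 12 * r * d + 7 * r + 4 * d ^ 2 + 8 * d + 3) := by
      rw [hm]
      ring
    have e4 : r * (d + m) ^ 2 + (r + 1) ≤ (r + 1) * m ^ 2 := by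
      have : (r + 1) * m ^ 2 = r * m ^ 2 + m ^ 2 := by ring
      rw [this]
      nth_rewrite 2 [e3]
      have : r * (d + m) ^ 2 = r * m ^ 2 + r * (d ^ 2 + 2 * d * m) := by ring
      rw [this]
      omega
    have e5 : (r + 1) * (m ^ 2 - 1) = (r + 1) * m ^ 2 - (r + 1) := by
      rw [Nat.mul_sub, mul_one]
    rw [e5, Nat.add_sub_cancel]
    omega

end Pool.Agent.Results.MP_2d259b_nt.WorstCaseFromMostCurves
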